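import Pool.Agent.helper33.SF.Spec

/-!
# sf:FIN: the square free part of a Fermat number, final assembly
-/

set_option autoImplicit false

open Finset

namespace Pool.Agent.SF

theorem FIN_not_sq (h C : ℕ) : 4 ^ h + 1 ≠ C ^ 2 ∨ h = 0 := by
  by_cases h0 : h = 0
  · exact Or.inr h0
  · refine Or.inl fun hC => ?_
    have e : (4 : ℕ) ^ h = (2 ^ h) ^ 2 := by
      rw [← pow_mul, mul_comm, pow_mul]
      norm_num
    rw [e] at hC
    have hp : 1 ≤ 2 ^ h := Nat.one_le_two_pow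
    have h1 : 2 ^ h < C := by
      by_contra hcon
      push Not at hcon
      have : C ^ 2 ≤ (2 ^ h) ^ 2 := Nat.pow_le_pow_left hcon 2
      omega
    have h2 : (2 ^ h + 1) ^ 2 ≤ C ^ 2 := Nat.pow_le_pow_left h1 2
    nlinarith

theorem FIN_five (h E C : ℕ) (hh : 1 ≤ h) (hE : 4 ^ h + 1 = E * C ^ 2) : Odd E ∧ 5 ≤ E := by
  have h4 : 2 ∣ 4 ^ h := dvd_pow (by norm_num) (by omega)
  have hodd : Odd E := by
    rw [← Nat.not_even_iff_odd]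
    intro he
    have h2 : 2 ∣ 4 ^ h + 1 := by
      rw [hE]
      exact Dvd.dvd.mul_right (even_iff_two_dvd.1 he) _
    omega
  refine ⟨hodd, ?_⟩
  have h1 : E ≠ 1 := by
    rintro rfl
    rw [one_mul] at hE
    rcases FIN_not_sq h C with h | h
    · exact h hE
    · omega
  have h3 : E ≠ 3 := by
    rintro rfl
    have h5 : 3 ∣ 4 ^ h + 1 := ⟨C ^ 2, hE⟩
    have h6 : 4 ^ h % 3 = 1 := by
      rw [Nat.pow_mod]
      norm_num
    omega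
  obtain ⟨k, hk⟩ := hodd
  omega

theorem FIN (hSTR : STR_stmt) (hPIG : PIG_stmt) (hDSM : DSM_stmt) (hNUM : NUM_stmt) (hFER : FER_stmt) : FIN_stmt := by
  have main : ∀ h E C : ℕ, 1 ≤ h → Squarefree E → 4 ^ h + 1 = E * C ^ 2 → (h : ℝ) ≤ 11 * √(E : ℝ) * (Real.log E) ^ 2 := by
    intro h E C hh hsq hE
    obtain ⟨hodd, h5⟩ := FIN_five h E C hh hE
    obtain ⟨u, v, huv, hu1, hub⟩ := hPIG E hodd hsq (by omega)
    have hlow := hSTR h E C hh hE u v huv hu1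
    have hE5 : (5 : ℝ) ≤ E := by exact_mod_cast h5
    have hs1 : 1 ≤ √(E : ℝ) := Real.one_le_sqrt.2 (by linarith)
    have hTle : ((⌊2 * √(E : ℝ)⌋₊ : ℕ) : ℝ) ≤ 2 * √(E : ℝ) := Nat.floor_le (by positivity)
    have hT1 : 1 ≤ ⌊2 * √(E : ℝ)⌋₊ := by
      rw [Nat.one_le_floor_iff]
      linarith
    refine hNUM h E (4 * (∑ t ∈ Icc 1 ⌊2 * √(E : ℝ)⌋₊, t.divisors.card)) h5 ?_ ?_
    · have h1 := hDSM _ hT1
      push_cast
      have hT1' : (1 : ℝ) ≤ ((⌊2 * √(E : ℝ)⌋₊ : ℕ) : ℝ) := by exact_mod_cast hT1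
      have hlog : Real.log ((⌊2 * √(E : ℝ)⌋₊ : ℕ) : ℝ) ≤ Real.log (2 * √(E : ℝ)) := Real.log_le_log (by linarith) hTle
      have hlog0 : 0 ≤ Real.log ((⌊2 * √(E : ℝ)⌋₊ : ℕ) : ℝ) := Real.log_nonneg hT1'
      have h2 : ((⌊2 * √(E : ℝ)⌋₊ : ℕ) : ℝ) * (1 + Real.log ((⌊2 * √(E : ℝ)⌋₊ : ℕ) : ℝ)) ≤
          2 * √(E : ℝ) * (1 + Real.log (2 * √(E : ℝ))) :=
        mul_le_mul hTle (by linarith) (by linarith) (by positivity)
      calc 4 * (∑ t ∈ Icc 1 ⌊2 * √(E : ℝ)⌋₊, ((t.divisors.card : ℕ) : ℝ))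
          ≤ 4 * (2 * √(E : ℝ) * (1 + Real.log (2 * √(E : ℝ)))) := by linarith
        _ = 4 * (2 * √(E : ℝ)) * (1 + Real.log (2 * √(E : ℝ))) := by ring
    · have h3 : ((2 * 4 ^ h + 1 : ℤ) : ℝ) ≤ (u : ℝ) := by exact_mod_cast hlow
      have h4 : (0 : ℝ) ≤ (4 : ℝ) ^ h := by positivity
      have h6 : (4 : ℝ) ^ h ≤ (u : ℝ) := by
        refine le_trans ?_ h3
        push_cast
        linarith
      exact h6.trans hub
  refine ⟨main, ?_⟩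
  intro m E C hm hsq hE
  have e1 : (2 : ℕ) ^ (2 ^ m) = 4 ^ (2 ^ (m - 1)) := by
    obtain ⟨k, rfl⟩ : ∃ k, m = k + 1 := ⟨m - 1, by omega⟩
    rw [Nat.add_sub_cancel, pow_succ (2 : ℕ) k, mul_comm (2 ^ k) 2, pow_mul]
    norm_num
  rw [e1] at hE
  have hh : 1 ≤ 2 ^ (m - 1) := Nat.one_le_two_pow
  have h1 := main (2 ^ (m - 1)) E C hh hsq hE
  obtain ⟨-, h5⟩ := FIN_five _ E C hh hE
  refine hFER m E hm (by omega) ?_
  push_cast at h1
  exact h1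

end Pool.Agent.SF
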